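import Pool.Agent.Lib.MP_3e612f_nt.ZE.W.Main
import Pool.Agent.Lib.MP_3e612f_nt.ZE.I.Nil

/-! Project ZE: weakly mixing components are modelled by the point. -/

set_option autoImplicit false

namespace Pool.Agent.Lib.MP_3e612f_nt.ZE

open Finset MeasureTheory Filter Topology ProbabilityTheory
open Pool.Agent.Lib.MP_3e612f_nt.NF (GoodR MalZ LL dot NilMfd NilMfd.sys NilMfd.FrIn)

/-- Mal'cev data of the point -/
noncomputable def ptM : MalZ Unit (⊤ : Subgroup Unit) 1 where
  I := fun _ => Empty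
  fin := fun _ => inferInstance
  n := fun _ => 0
  p := fun _ _ e => e.elim
  e := fun _ _ => 1
  n_cont := continuous_const
  n_mul := fun _ _ => by simp
  p_cont := fun _ _ => (continuous_pi fun e => e.elim).continuousOn
  p_mul := fun _ _ _ _ _ _ => funext fun e => e.elim
  p_ker := fun i _ x _ _ => ⟨fun _ => by
    have h1 : x = 1 := Subsingleton.elim _ _
    rw [h1]
    exact one_mem _, fun _ => funext fun e => e.elim⟩
  e_cont := fun _ _ => continuous_const
  e_mem := fun _ _ _ => one_mem _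
  n_e := fun _ => rfl
  p_e := fun _ _ _ => funext fun e => e.elim
  p_int := fun _ _ _ _ _ e => e.elim
  int_p := fun _ _ _ => ⟨1, one_mem _, one_mem _, rfl, fun e => e.elim⟩
  int_n := Or.inl fun _ => rfl

/-- the point as a nilmanifold -/
noncomputable def pt : NilMfd where
  G := Unit
  Γ := ⊤
  closed := by
    rw [Subgroup.coe_top]
    exact isClosed_univ
  k := 1
  pos := le_rfl
  nil := Subsingleton.elim _ _
  M := ptM

theorem nilU_wm {Y : Type} [MetricSpace Y] [CompactSpace Y] [MeasurableSpace Y] [BorelSpace Y] (S : Y → Y) (hS : Continuous S) (g : Y → ℂ) (hg : Continuous g) (hg1 : ∀ y, ‖g y‖ ≤ 1 / 2)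
    (κ : Measure Y) [IsProbabilityMeasure κ] (hκ : MeasurePreserving S κ κ) (hE : Ergodic (Prod.map S S) (κ.prod κ)) (𝒩 : ℕ → NilMfd) (h0 : 𝒩 0 = pt) (E : Set ℝ) : NilU S g 𝒩 E κ := by
  intro K ε hε
  obtain ⟨H, hH, hle⟩ := wm_psi hκ hE g hg.measurable (1 / 2) hg1 K ε hε
  refine ⟨0, 0, ?_⟩
  rw [h0]
  refine ⟨fun _ => (1 : Unit), ⟨Or.inl fun _ => rfl, fun m hm => absurd (funext fun e : Empty => e.elim) hm⟩, ?_⟩
  have hsub : Subsingleton (Fin (0 + 1) × (pt.G ⧸ pt.Γ)) := by
    have h1 : Subsingleton (pt.G ⧸ pt.Γ) := by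
      have h2 : Subsingleton pt.G := inferInstanceAs (Subsingleton Unit)
      infer_instance
    have h3 : Subsingleton (Fin (0 + 1)) := inferInstanceAs (Subsingleton (Fin 1))
    exact ⟨fun a b => Prod.ext (Subsingleton.elim _ _) (Subsingleton.elim _ _)⟩
  let msX : MeasurableSpace (Fin (0 + 1) × (pt.G ⧸ pt.Γ)) := borel _
  have bsX : BorelSpace (Fin (0 + 1) × (pt.G ⧸ pt.Γ)) := ⟨rfl⟩
  obtain ⟨x0⟩ : Nonempty (Fin (0 + 1) × (pt.G ⧸ pt.Γ)) := ⟨(0, ((1 : pt.G) : pt.G ⧸ pt.Γ))⟩
  have hm : Measurable (fun y : Y => (x0, y)) := measurable_const.prodMk measurable_id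
  have hTm : Measurable (pt.sys (q := 0) fun _ => (1 : Unit)) := by
    have h1 : (pt.sys (q := 0) fun _ => (1 : Unit)) = id := funext fun x => Subsingleton.elim _ _
    rw [h1]
    exact measurable_id
  have hc : ‖∫ z, g z ∂κ‖ ≤ 1 / 2 := by
    have h1 := norm_integral_le_of_norm_le_const (μ := κ) (f := g) (C := 1 / 2) (Eventually.of_forall hg1)
    simpa using h1
  refine ⟨msX, bsX, fun _ => ∫ z, g z ∂κ, H, κ.map fun y => (x0, y), continuous_const, fun _ => hc, hH, ?_, ?_, ?_, ?_⟩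
  · exact Measure.isProbabilityMeasure_map hm.aemeasurable
  · refine ⟨hTm.prodMap hS.measurable, ?_⟩
    rw [Measure.map_map (hTm.prodMap hS.measurable) hm]
    have h1 : (Prod.map (pt.sys (q := 0) fun _ => (1 : Unit)) S) ∘ (fun y : Y => (x0, y)) = (fun y : Y => (x0, y)) ∘ S := by
      funext y
      exact Prod.ext (Subsingleton.elim _ _) rfl
    rw [h1, ← Measure.map_map hm hS.measurable, hκ.map_eq]
  · rw [Measure.map_map measurable_snd hm]
    exact Measure.map_id
  · have h1 : ∀ p : (Fin (0 + 1) × (pt.G ⧸ pt.Γ)) × Y, Ps (pt.sys (q := 0) fun _ => (1 : Unit)) S (fun _ => ∫ z, g z ∂κ) g H K p = psi H K (fun n => g (S^[n] p.2) - ∫ z, g z ∂κ) 0 := fun p => rfl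
    simp only [h1]
    rw [integral_map hm.aemeasurable]
    · exact hle
    · refine Measurable.aestronglyMeasurable ?_
      exact psi_meas H K _ (fun n => (hg.measurable.comp ((hS.measurable.iterate n).comp measurable_snd)).sub measurable_const) 0

end Pool.Agent.Lib.MP_3e612f_nt.ZE
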