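import Pool.Agent.Lib.MP_3e612f_nt.ZE.W.Defs

/-! The box norms of a function on a system as averages over cubes; the outermost scale can be made smaller. -/

set_option autoImplicit false

namespace Pool.Agent.Lib.MP_3e612f_nt.ZE

open Finset MeasureTheory Filter Topology

private theorem cubA_avg_le (H : ℕ) (z : ℕ → ℂ) (hz : ∀ a, ‖z a‖ ≤ 1) :
    ‖(∑ a ∈ range H, z a) / (H : ℂ)‖ ≤ 1 := by
  rw [norm_div, Complex.norm_natCast]
  refine div_le_one_of_le₀ ?_ (Nat.cast_nonneg H)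
  refine (norm_sum_le _ _).trans ?_
  calc ∑ a ∈ range H, ‖z a‖ ≤ ∑ a ∈ range H, (1 : ℝ) := sum_le_sum fun a _ => hz a
    _ = H := by rw [sum_const, card_range, nsmul_eq_mul, mul_one]

private theorem cubA_avg2_le (H : ℕ) (z : ℕ → ℕ → ℝ) (hz : ∀ a b, |z a b| ≤ 1) :
    |(∑ a ∈ range H, ∑ b ∈ range H, z a b) / (H : ℝ) ^ 2| ≤ 1 := by
  rw [abs_div, abs_of_nonneg (by positivity : (0 : ℝ) ≤ (H : ℝ) ^ 2)]
  refine div_le_one_of_le₀ ?_ (by positivity)
  calc |∑ a ∈ range H, ∑ b ∈ range H, z a b| ≤ ∑ a ∈ range H, |∑ b ∈ range H, z a b| :=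
        abs_sum_le_sum_abs _ _
    _ ≤ ∑ a ∈ range H, ∑ b ∈ range H, |z a b| := sum_le_sum fun a _ => abs_sum_le_sum_abs _ _
    _ ≤ ∑ a ∈ range H, ∑ b ∈ range H, (1 : ℝ) := sum_le_sum fun a _ => sum_le_sum fun b _ => hz a b
    _ = (H : ℝ) ^ 2 := by
      rw [sum_const, sum_const, card_range, nsmul_eq_mul, nsmul_eq_mul, mul_one, sq]

private theorem cubA_psi_le (H K : ℕ) : ∀ (w : ℕ → ℂ) (j : ℕ), (∀ n, ‖w n‖ ≤ 1) →
    |psi H K w j| ≤ 1 := by
  induction K with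
  | zero =>
    intro w j hw
    unfold psi
    have h1 := cubA_avg_le H (fun a => w (j + a)) (fun a => hw _)
    rw [abs_of_nonneg (by positivity)]
    exact pow_le_one₀ (norm_nonneg _) h1
  | succ K ih =>
    intro w j hw
    unfold psi
    refine cubA_avg2_le H _ fun a b => ih _ _ fun n => ?_
    rw [norm_mul, RCLike.norm_conj]
    exact mul_le_one₀ (hw _) (norm_nonneg _) (hw _)

section
variable {Y : Type} [MeasurableSpace Y] {ν : Measure Y} [IsProbabilityMeasure ν] {S : Y → Y}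

private theorem cubA_vv_iter (a b n : ℕ) (v : Y → ℂ) (y : Y) : vv S a b v (S^[n] y) =
    v (S^[n + a] y) * (starRingEnd ℂ) (v (S^[n + b] y)) := by
  unfold vv
  rw [← Function.iterate_add_apply, ← Function.iterate_add_apply, add_comm a n, add_comm b n]

private theorem cubA_psi_succ (H K : ℕ) (v : Y → ℂ) (y : Y) :
    psi H (K + 1) (fun n => v (S^[n] y)) 0 =
      (∑ a ∈ range H, ∑ b ∈ range H, psi H K (fun n => vv S a b v (S^[n] y)) 0) / (H : ℝ) ^ 2 := by
  have h1 : ∀ a b, (fun n => vv S a b v (S^[n] y)) =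
      fun n => v (S^[n + a] y) * (starRingEnd ℂ) (v (S^[n + b] y)) := by
    intro a b
    funext n
    exact cubA_vv_iter a b n v y
  simp only [h1]
  rfl

private theorem cubA_vv_meas (hS : Measurable S) (a b : ℕ) (v : Y → ℂ) (hv : Measurable v) :
    Measurable (vv S a b v) :=
  (hv.comp (hS.iterate a)).mul (Complex.continuous_conj.measurable.comp (hv.comp (hS.iterate b)))

private theorem cubA_vv_le (a b : ℕ) (v : Y → ℂ) (hb : ∀ y, ‖v y‖ ≤ 1) (y : Y) :
    ‖vv S a b v y‖ ≤ 1 := by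
  unfold vv
  rw [norm_mul, RCLike.norm_conj]
  exact mul_le_one₀ (hb _) (norm_nonneg _) (hb _)

private theorem cubA_psi_meas (hS : Measurable S) (H K : ℕ) : ∀ v : Y → ℂ, Measurable v →
    Measurable (fun y => psi H K (fun n => v (S^[n] y)) 0) := by
  induction K with
  | zero =>
    intro v hv
    show Measurable (fun y => ‖(∑ a ∈ range H, v (S^[0 + a] y)) / (H : ℂ)‖ ^ 2)
    refine Measurable.pow_const (Measurable.norm ?_) 2
    refine Measurable.div_const (Finset.measurable_sum _ fun a _ => ?_) _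
    exact hv.comp (hS.iterate _)
  | succ K ih =>
    intro v hv
    simp only [cubA_psi_succ]
    refine Measurable.div_const (Finset.measurable_sum _ fun a _ =>
      Finset.measurable_sum _ fun b _ => ?_) _
    exact ih _ (cubA_vv_meas hS a b v hv)

private theorem cubA_int_bdd {f : Y → ℝ} (hf : Measurable f) (hb : ∀ y, |f y| ≤ 1) :
    Integrable f ν :=
  Integrable.of_bound hf.aestronglyMeasurable 1 (Eventually.of_forall fun y => hb y)

private theorem cubA_int_bddC {f : Y → ℂ} (hf : Measurable f) (hb : ∀ y, ‖f y‖ ≤ 1) :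
    Integrable f ν :=
  Integrable.of_bound hf.aestronglyMeasurable 1 (Eventually.of_forall fun y => hb y)

private theorem cubA_psi_int (hS : Measurable S) (H K : ℕ) (v : Y → ℂ) (hv : Measurable v)
    (hb : ∀ y, ‖v y‖ ≤ 1) : Integrable (fun y => psi H K (fun n => v (S^[n] y)) 0) ν :=
  cubA_int_bdd (cubA_psi_meas hS H K v hv) fun y => cubA_psi_le H K _ _ fun n => hb _

/-- `S^[a] (S^[n] y) = S^[n] (S^[a] y)`; exchange of the integral and the finite sums -/
theorem pn_succ (hS : Measurable S) (H K : ℕ) (v : Y → ℂ) (hv : Measurable v) (hb : ∀ y, ‖v y‖ ≤ 1) :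
    pn ν S H (K + 1) v = (∑ a ∈ range H, ∑ b ∈ range H, pn ν S H K (vv S a b v)) / (H : ℝ) ^ 2 := by
  unfold pn
  simp only [cubA_psi_succ]
  have hi : ∀ a b, Integrable (fun y => psi H K (fun n => vv S a b v (S^[n] y)) 0) ν :=
    fun a b => cubA_psi_int hS H K _ (cubA_vv_meas hS a b v hv) (cubA_vv_le a b v hb)
  rw [integral_div, integral_finset_sum _ fun a _ => integrable_finset_sum _ fun b _ => hi a b]
  congr 1
  exact sum_congr rfl fun a _ => integral_finset_sum _ fun b _ => hi a b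

private theorem cubA_comm (a b c d : ℕ) (v : Y → ℂ) :
    vv S c d (vv S a b v) = vv S a b (vv S c d v) := by
  funext y
  have h : ∀ i j : ℕ, S^[i] (S^[j] y) = S^[i + j] y := fun i j =>
    (Function.iterate_add_apply S i j y).symm
  unfold vv
  simp only [h, map_mul, Complex.conj_conj]
  rw [add_comm a c, add_comm b c, add_comm a d, add_comm b d]
  ring

/-- induction on `l`; the shifts commute -/
theorem cub_vv (l : List (ℕ × ℕ)) (a b : ℕ) (v : Y → ℂ) : cub S l (vv S a b v) = vv S a b (cub S l v) := by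
  induction l generalizing v with
  | nil => rfl
  | cons q l ih =>
    show cub S l (vv S q.1 q.2 (vv S a b v)) = vv S a b (cub S l (vv S q.1 q.2 v))
    rw [cubA_comm, ih]

theorem cub_bdd (hS : Measurable S) (l : List (ℕ × ℕ)) (v : Y → ℂ) (hv : Measurable v) (hb : ∀ y, ‖v y‖ ≤ 1) :
    Measurable (cub S l v) ∧ ∀ y, ‖cub S l v y‖ ≤ 1 := by
  induction l generalizing v with
  | nil => exact ⟨hv, hb⟩
  | cons q l ih => exact ih _ (cubA_vv_meas hS _ _ v hv) (cubA_vv_le _ _ v hb)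

private theorem cubA_normsq (H : ℕ) (z : ℕ → ℂ) : ‖(∑ a ∈ range H, z a) / (H : ℂ)‖ ^ 2 =
    (∑ a ∈ range H, ∑ b ∈ range H, (z a * (starRingEnd ℂ) (z b)).re) / (H : ℝ) ^ 2 := by
  rw [norm_div, Complex.norm_natCast, div_pow]
  congr 1
  have h1 : ((‖∑ a ∈ range H, z a‖ ^ 2 : ℝ) : ℂ) =
      ∑ a ∈ range H, ∑ b ∈ range H, z a * (starRingEnd ℂ) (z b) := by
    rw [Complex.ofReal_pow, ← Complex.mul_conj', map_sum, sum_mul_sum]
  have h2 := congrArg Complex.re h1
  rw [Complex.ofReal_re] at h2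
  rw [h2, Complex.re_sum]
  exact sum_congr rfl fun a _ => Complex.re_sum _ _

private theorem cubA_sq_eq (hS : Measurable S) (H : ℕ) (w : Y → ℂ) (hw : Measurable w)
    (hb : ∀ y, ‖w y‖ ≤ 1) : ∫ y, ‖(∑ a ∈ range H, w (S^[a] y)) / (H : ℂ)‖ ^ 2 ∂ν =
    (∑ a ∈ range H, ∑ b ∈ range H, (∫ y, vv S a b w y ∂ν).re) / (H : ℝ) ^ 2 := by
  simp only [cubA_normsq]
  have h1 : ∀ a b, Integrable (vv S a b w) ν :=
    fun a b => cubA_int_bddC (cubA_vv_meas hS a b w hw) (cubA_vv_le a b w hb)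
  have hi : ∀ a b, Integrable (fun y => (w (S^[a] y) * (starRingEnd ℂ) (w (S^[b] y))).re) ν :=
    fun a b => (h1 a b).re
  rw [integral_div, integral_finset_sum _ fun a _ => integrable_finset_sum _ fun b _ => hi a b]
  congr 1
  refine sum_congr rfl fun a _ => (integral_finset_sum _ fun b _ => hi a b).trans ?_
  exact sum_congr rfl fun b _ => integral_re (h1 a b)

/-- induction on `K`, `pn_succ`; `K = 0`: `‖E_a v_a‖² = E_{a,b} Re (v_a conj v_b)` -/
theorem pn_eq (hS : Measurable S) (H K : ℕ) (v : Y → ℂ) (hv : Measurable v) (hb : ∀ y, ‖v y‖ ≤ 1) :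
    pn ν S H K v = lsav H (K + 1) (fun l => (∫ y, cub S l v y ∂ν).re) := by
  induction K generalizing v with
  | zero =>
    have h1 := cubA_sq_eq (ν := ν) hS H v hv hb
    unfold pn
    have h2 : ∀ y, psi H 0 (fun n => v (S^[n] y)) 0 = ‖(∑ a ∈ range H, v (S^[a] y)) / (H : ℂ)‖ ^ 2 := by
      intro y
      unfold psi
      simp only [zero_add]
    simp only [h2]
    rw [h1]
    rfl
  | succ K ih =>
    rw [pn_succ hS H K v hv hb]
    show _ = (∑ a ∈ range H, ∑ b ∈ range H,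
      lsav H (K + 1) (fun l => (∫ y, cub S l (vv S a b v) y ∂ν).re)) / (H : ℝ) ^ 2
    congr 1
    exact sum_congr rfl fun a _ => sum_congr rfl fun b _ =>
      ih _ (cubA_vv_meas hS a b v hv) (cubA_vv_le a b v hb)

private theorem cubA_shift (u : ℕ → ℂ) (hu : ∀ n, ‖u n‖ ≤ 1) (H i : ℕ) :
    ‖∑ a ∈ range H, u a - ∑ a ∈ range H, u (a + i)‖ ≤ 2 * i := by
  have h1 : ∑ a ∈ range H, u a + ∑ a ∈ range i, u (H + a) =
      ∑ a ∈ range i, u a + ∑ a ∈ range H, u (i + a) := by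
    rw [← sum_range_add, ← sum_range_add, add_comm H i]
  have h2 : ∑ a ∈ range H, u a - ∑ a ∈ range H, u (a + i) =
      ∑ a ∈ range i, u a - ∑ a ∈ range i, u (H + a) := by
    have h3 : ∑ a ∈ range H, u (a + i) = ∑ a ∈ range H, u (i + a) :=
      sum_congr rfl fun a _ => by rw [add_comm]
    rw [h3]
    linear_combination h1
  have h4 : ∀ w : ℕ → ℂ, (∀ n, ‖w n‖ ≤ 1) → ‖∑ a ∈ range i, w a‖ ≤ i := by
    intro w hw
    refine (norm_sum_le _ _).trans ?_
    calc ∑ a ∈ range i, ‖w a‖ ≤ ∑ a ∈ range i, (1 : ℝ) := sum_le_sum fun a _ => hw a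
      _ = i := by rw [sum_const, card_range, nsmul_eq_mul, mul_one]
  rw [h2]
  refine (norm_sub_le _ _).trans ?_
  have h5 := h4 u hu
  have h6 := h4 (fun a => u (H + a)) fun n => hu _
  linarith

private theorem cubA_point (h H : ℕ) (hh : 1 ≤ h) (hH : h ≤ H) (u : ℕ → ℂ) (hu : ∀ n, ‖u n‖ ≤ 1) :
    ‖(∑ a ∈ range H, u a) / (H : ℂ)‖ ^ 2 ≤
      (∑ a ∈ range H, ‖(∑ i ∈ range h, u (a + i)) / (h : ℂ)‖ ^ 2) / H + 4 * h / H := by
  have hH0 : (0 : ℝ) < H := by exact_mod_cast (by omega : 0 < H)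
  have hh0 : (0 : ℝ) < h := by exact_mod_cast (by omega : 0 < h)
  have hHc : (H : ℂ) ≠ 0 := by exact_mod_cast (by omega : H ≠ 0)
  have hhc : (h : ℂ) ≠ 0 := by exact_mod_cast (by omega : h ≠ 0)
  obtain ⟨A, hA⟩ : ∃ A : ℂ, A = (∑ a ∈ range H, u a) / (H : ℂ) := ⟨_, rfl⟩
  obtain ⟨B, hB⟩ : ∃ B : ℕ → ℂ, B = fun a => (∑ i ∈ range h, u (a + i)) / (h : ℂ) := ⟨_, rfl⟩
  obtain ⟨Cc, hC⟩ : ∃ Cc : ℂ, Cc = (∑ a ∈ range H, B a) / (H : ℂ) := ⟨_, rfl⟩
  have hB1 : ∀ a, ‖B a‖ ≤ 1 := by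
    intro a
    rw [hB]
    exact cubA_avg_le h (fun i => u (a + i)) fun i => hu _
  have hA1 : ‖A‖ ≤ 1 := by
    rw [hA]
    exact cubA_avg_le H u hu
  have hC1 : ‖Cc‖ ≤ 1 := by
    rw [hC]
    exact cubA_avg_le H B hB1
  have hd : A - Cc = (∑ i ∈ range h, (∑ a ∈ range H, u a - ∑ a ∈ range H, u (a + i))) /
      ((h : ℂ) * H) := by
    have h1 : ∑ a ∈ range H, B a = (∑ i ∈ range h, ∑ a ∈ range H, u (a + i)) / (h : ℂ) := by
      rw [hB, ← sum_div, sum_comm]
    rw [sum_sub_distrib, sum_const, card_range, nsmul_eq_mul, hC, h1, hA]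
    field_simp
  have hd2 : ‖A - Cc‖ ≤ 2 * h / H := by
    rw [hd, norm_div, norm_mul, Complex.norm_natCast, Complex.norm_natCast,
      div_le_div_iff₀ (by positivity) hH0]
    have h2 : ‖∑ i ∈ range h, (∑ a ∈ range H, u a - ∑ a ∈ range H, u (a + i))‖ ≤ h * (2 * h) := by
      refine (norm_sum_le _ _).trans ?_
      calc ∑ i ∈ range h, ‖∑ a ∈ range H, u a - ∑ a ∈ range H, u (a + i)‖ ≤
            ∑ i ∈ range h, (2 * (h : ℝ)) := by
            refine sum_le_sum fun i hi => (cubA_shift u hu H i).trans ?_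
            have h3 : (i : ℝ) ≤ h := by exact_mod_cast (mem_range.1 hi).le
            linarith
        _ = h * (2 * h) := by rw [sum_const, card_range, nsmul_eq_mul]
    exact (mul_le_mul_of_nonneg_right h2 hH0.le).trans_eq (by ring)
  have h3 : ‖A‖ ^ 2 ≤ ‖Cc‖ ^ 2 + 4 * h / H := by
    have h4 : ‖A‖ ≤ ‖Cc‖ + ‖A - Cc‖ := by
      have h5 := norm_add_le Cc (A - Cc)
      rwa [add_sub_cancel] at h5
    have h6 : 4 * (h : ℝ) / H = 2 * (2 * h / H) := by ring
    rw [h6]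
    have h7 := norm_nonneg A
    have h8 := norm_nonneg Cc
    have h9 := norm_nonneg (A - Cc)
    nlinarith
  have h4 : ‖Cc‖ ^ 2 ≤ (∑ a ∈ range H, ‖B a‖ ^ 2) / H := by
    rw [hC, norm_div, Complex.norm_natCast, div_pow, div_le_div_iff₀ (by positivity) hH0]
    have h5 : ‖∑ a ∈ range H, B a‖ ^ 2 ≤ H * ∑ a ∈ range H, ‖B a‖ ^ 2 := by
      calc ‖∑ a ∈ range H, B a‖ ^ 2 ≤ (∑ a ∈ range H, ‖B a‖) ^ 2 :=
            pow_le_pow_left₀ (norm_nonneg _) (norm_sum_le _ _) 2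
        _ ≤ ((range H).card : ℝ) * ∑ a ∈ range H, ‖B a‖ ^ 2 := sq_sum_le_card_mul_sum_sq
        _ = _ := by rw [card_range]
    calc _ ≤ H * (∑ a ∈ range H, ‖B a‖ ^ 2) * H := mul_le_mul_of_nonneg_right h5 hH0.le
      _ = _ := by ring
  rw [hA] at h3
  rw [hB] at h4
  linarith

/-- `∫ |E_{a<H} u_a|² ≤ ∫ |E_{a<h} u_a|² + 4h/H`: `E_{a<H} u_a = E_{a<H} (E_{i<h} u_{a+i}) + O(h/H)`, convexity of the square, invariance -/
theorem scale_le (hS : MeasurePreserving S ν ν) (h H : ℕ) (hh : 1 ≤ h) (hH : h ≤ H) (u : Y → ℂ) (hu : Measurable u) (hb : ∀ y, ‖u y‖ ≤ 1) :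
    ∫ y, ‖(∑ a ∈ range H, u (S^[a] y)) / (H : ℂ)‖ ^ 2 ∂ν ≤ ∫ y, ‖(∑ a ∈ range h, u (S^[a] y)) / (h : ℂ)‖ ^ 2 ∂ν + 4 * h / H := by
  have hSm := hS.measurable
  have hH0 : (0 : ℝ) < H := by exact_mod_cast (by omega : 0 < H)
  obtain ⟨G, hG⟩ : ∃ G : ℕ → Y → ℝ, G = fun n y => ‖(∑ a ∈ range n, u (S^[a] y)) / (n : ℂ)‖ ^ 2 :=
    ⟨_, rfl⟩
  have hGm : ∀ n, Measurable (G n) := by
    intro n
    rw [hG]
    refine Measurable.pow_const (Measurable.norm ?_) 2
    refine Measurable.div_const (Finset.measurable_sum _ fun a _ => ?_) _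
    exact hu.comp (hSm.iterate _)
  have hGb : ∀ n y, |G n y| ≤ 1 := by
    intro n y
    rw [hG]
    have h1 := cubA_avg_le n (fun a => u (S^[a] y)) (fun a => hb _)
    show |‖(∑ a ∈ range n, u (S^[a] y)) / (n : ℂ)‖ ^ 2| ≤ 1
    rw [abs_of_nonneg (by positivity)]
    exact pow_le_one₀ (norm_nonneg _) h1
  have hGi : ∀ n, Integrable (G n) ν := fun n => cubA_int_bdd (hGm n) (hGb n)
  have hGa : ∀ n a, Integrable (fun y => G n (S^[a] y)) ν :=
    fun n a => cubA_int_bdd ((hGm n).comp (hSm.iterate a)) fun y => hGb n _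
  have hpt : ∀ y, G H y ≤ (∑ a ∈ range H, G h (S^[a] y)) / H + 4 * h / H := by
    intro y
    have h1 := cubA_point h H hh hH (fun n => u (S^[n] y)) fun n => hb _
    rw [hG]
    refine h1.trans_eq ?_
    congr 2
    refine sum_congr rfl fun a _ => ?_
    show _ = ‖(∑ i ∈ range h, u (S^[i] (S^[a] y))) / (h : ℂ)‖ ^ 2
    congr 4
    funext i
    rw [← Function.iterate_add_apply, add_comm i a]
  have hinv : ∀ a, ∫ y, G h (S^[a] y) ∂ν = ∫ y, G h y ∂ν := by
    intro a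
    have h1 := hS.iterate a
    have h2 : ∫ y, G h (S^[a] y) ∂ν = ∫ y, G h y ∂(ν.map (S^[a])) :=
      (integral_map h1.measurable.aemeasurable (hGm h).aestronglyMeasurable).symm
    rw [h2, h1.map_eq]
  have hfin : ∫ y, ((∑ a ∈ range H, G h (S^[a] y)) / H + 4 * h / H) ∂ν = ∫ y, G h y ∂ν + 4 * h / H := by
    rw [integral_add ((integrable_finset_sum _ fun a _ => hGa h a).div_const _)
      (integrable_const _), integral_div, integral_finset_sum _ fun a _ => hGa h a,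
      integral_const, probReal_univ, one_smul]
    congr 1
    rw [sum_congr rfl fun a _ => hinv a, sum_const, card_range, nsmul_eq_mul]
    field_simp
  have hmain : ∫ y, G H y ∂ν ≤ ∫ y, G h y ∂ν + 4 * h / H := by
    rw [← hfin]
    exact integral_mono (hGi H) (((integrable_finset_sum _ fun a _ => hGa h a).div_const _).add
      (integrable_const _)) hpt
  rw [hG] at hmain
  exact hmain

private theorem cubA_lsav_sum (H k : ℕ) (s : Finset ℕ) : ∀ f : ℕ → List (ℕ × ℕ) → ℝ,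
    lsav H k (fun l => ∑ i ∈ s, f i l) = ∑ i ∈ s, lsav H k (f i) := by
  induction k with
  | zero => exact fun f => rfl
  | succ k ih =>
    intro f
    show (∑ a ∈ range H, ∑ b ∈ range H, lsav H k (fun l => ∑ i ∈ s, f i ((a, b) :: l))) /
      (H : ℝ) ^ 2 = ∑ i ∈ s, (∑ a ∈ range H, ∑ b ∈ range H,
        lsav H k (fun l => f i ((a, b) :: l))) / (H : ℝ) ^ 2
    rw [← sum_div]
    congr 1
    calc ∑ a ∈ range H, ∑ b ∈ range H, lsav H k (fun l => ∑ i ∈ s, f i ((a, b) :: l))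
        = ∑ a ∈ range H, ∑ b ∈ range H, ∑ i ∈ s, lsav H k (fun l => f i ((a, b) :: l)) :=
          sum_congr rfl fun a _ => sum_congr rfl fun b _ => ih fun i l => f i ((a, b) :: l)
      _ = ∑ a ∈ range H, ∑ i ∈ s, ∑ b ∈ range H, lsav H k (fun l => f i ((a, b) :: l)) :=
          sum_congr rfl fun a _ => sum_comm
      _ = ∑ i ∈ s, ∑ a ∈ range H, ∑ b ∈ range H, lsav H k (fun l => f i ((a, b) :: l)) :=
          sum_comm

private theorem cubA_lsav_div (H k : ℕ) (c : ℝ) : ∀ f : List (ℕ × ℕ) → ℝ,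
    lsav H k (fun l => f l / c) = lsav H k f / c := by
  induction k with
  | zero => exact fun f => rfl
  | succ k ih =>
    intro f
    show (∑ a ∈ range H, ∑ b ∈ range H, lsav H k (fun l => f ((a, b) :: l) / c)) /
      (H : ℝ) ^ 2 = (∑ a ∈ range H, ∑ b ∈ range H,
        lsav H k (fun l => f ((a, b) :: l))) / (H : ℝ) ^ 2 / c
    have h1 : ∀ a b : ℕ, lsav H k (fun l => f ((a, b) :: l) / c) =
        lsav H k (fun l => f ((a, b) :: l)) / c := fun a b => ih fun l => f ((a, b) :: l)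
    simp only [h1, ← sum_div]
    exact div_right_comm _ _ _

private theorem cubA_lsav_mono (H k : ℕ) : ∀ f g : List (ℕ × ℕ) → ℝ, (∀ l, f l ≤ g l) →
    lsav H k f ≤ lsav H k g := by
  induction k with
  | zero => exact fun f g h => h []
  | succ k ih =>
    intro f g h
    refine div_le_div_of_nonneg_right ?_ (by positivity)
    exact sum_le_sum fun a _ => sum_le_sum fun b _ => ih _ _ fun l => h _

private theorem cubA_lsav_add (H : ℕ) (hH : 1 ≤ H) (c : ℝ) (k : ℕ) : ∀ f : List (ℕ × ℕ) → ℝ,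
    lsav H k (fun l => f l + c) = lsav H k f + c := by
  have hH0 : (H : ℝ) ≠ 0 := by exact_mod_cast (by omega : H ≠ 0)
  induction k with
  | zero => exact fun f => rfl
  | succ k ih =>
    intro f
    show (∑ a ∈ range H, ∑ b ∈ range H, lsav H k (fun l => f ((a, b) :: l) + c)) /
      (H : ℝ) ^ 2 = (∑ a ∈ range H, ∑ b ∈ range H,
        lsav H k (fun l => f ((a, b) :: l))) / (H : ℝ) ^ 2 + c
    have h1 : ∀ a b : ℕ, lsav H k (fun l => f ((a, b) :: l) + c) =
        lsav H k (fun l => f ((a, b) :: l)) + c := fun a b => ih fun l => f ((a, b) :: l)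
    simp only [h1, sum_add_distrib, sum_const, card_range, nsmul_eq_mul]
    field_simp

private theorem cubA_outer (hS : Measurable S) (H K n : ℕ) (v : Y → ℂ) (hv : Measurable v)
    (hb : ∀ y, ‖v y‖ ≤ 1) : (∑ a ∈ range n, ∑ b ∈ range n, pn ν S H K (vv S a b v)) / (n : ℝ) ^ 2 =
    lsav H (K + 1) (fun l => ∫ y, ‖(∑ a ∈ range n, cub S l v (S^[a] y)) / (n : ℂ)‖ ^ 2 ∂ν) := by
  have h1 : ∀ l, ∫ y, ‖(∑ a ∈ range n, cub S l v (S^[a] y)) / (n : ℂ)‖ ^ 2 ∂ν =
      (∑ a ∈ range n, ∑ b ∈ range n, (∫ y, cub S l (vv S a b v) y ∂ν).re) / (n : ℝ) ^ 2 := by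
    intro l
    have h2 := cub_bdd hS l v hv hb
    rw [cubA_sq_eq hS n _ h2.1 h2.2]
    congr 1
    exact sum_congr rfl fun a _ => sum_congr rfl fun b _ => by rw [cub_vv]
  simp only [h1]
  rw [cubA_lsav_div, cubA_lsav_sum]
  congr 1
  refine sum_congr rfl fun a _ => ?_
  rw [cubA_lsav_sum]
  exact sum_congr rfl fun b _ => pn_eq hS H K _ (cubA_vv_meas hS a b v hv) (cubA_vv_le a b v hb)

/-- `pn H (K+1) v = E_{a,b<H} lsav H (K+1) (l ↦ Re ∫ vv a b (cub l v)) = lsav H (K+1) (l ↦ ∫ ‖E_{a<H} (cub l v)_a‖²)` (`pn_eq`, `cub_vv`, linearity of `lsav`), then `scale_le` and monotonicity of `lsav` -/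
theorem pn_scale (hS : MeasurePreserving S ν ν) (h H K : ℕ) (hh : 1 ≤ h) (hH : h ≤ H) (v : Y → ℂ) (hv : Measurable v) (hb : ∀ y, ‖v y‖ ≤ 1) :
    pn ν S H (K + 1) v ≤ (∑ a ∈ range h, ∑ b ∈ range h, pn ν S H K (vv S a b v)) / (h : ℝ) ^ 2 + 4 * h / H := by
  have hSm := hS.measurable
  rw [pn_succ hSm H K v hv hb, cubA_outer hSm H K H v hv hb, cubA_outer hSm H K h v hv hb,
    ← cubA_lsav_add H (hh.trans hH)]
  refine cubA_lsav_mono H (K + 1) _ _ fun l => ?_
  have h2 := cub_bdd hSm l v hv hb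
  exact scale_le hS h H hh hH _ h2.1 h2.2

end

end Pool.Agent.Lib.MP_3e612f_nt.ZE
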