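import Pool.Agent.Lib.MP_3e612f_nt.ZE.Defs

/-! Weakly mixing systems: all box norms of functions of mean zero tend to zero. Definitions. -/

set_option autoImplicit false

namespace Pool.Agent.Lib.MP_3e612f_nt.ZE

open Finset MeasureTheory Filter Topology

/-- the box norm of order `K + 1` of the function `v` on the system `(Y, ν, S)` -/
noncomputable def pn {Y : Type} [MeasurableSpace Y] (ν : Measure Y) (S : Y → Y) (H K : ℕ) (v : Y → ℂ) : ℝ :=
  ∫ y, psi H K (fun n => v (S^[n] y)) 0 ∂ν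

/-- `v_a * conj v_b` -/
noncomputable def vv {Y : Type} (S : Y → Y) (a b : ℕ) (v : Y → ℂ) : Y → ℂ := fun y => v (S^[a] y) * (starRingEnd ℂ) (v (S^[b] y))

/-- products over cubes -/
noncomputable def cub {Y : Type} (S : Y → Y) : List (ℕ × ℕ) → (Y → ℂ) → (Y → ℂ)
  | [], v => v
  | q :: l, v => cub S l (vv S q.1 q.2 v)

/-- averages over lists -/
noncomputable def lsav (H : ℕ) : ℕ → (List (ℕ × ℕ) → ℝ) → ℝ
  | 0, f => f []
  | k + 1, f => (∑ a ∈ range H, ∑ b ∈ range H, lsav H k (fun l => f ((a, b) :: l))) / (H : ℝ) ^ 2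

end Pool.Agent.Lib.MP_3e612f_nt.ZE
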