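import Pool.Agent.Lib.MP_3e612f_nt.ZE.W.Defs

/-! The mean ergodic theorem and correlations in weakly mixing systems. -/

set_option autoImplicit false

namespace Pool.Agent.Lib.MP_3e612f_nt.ZE

open Finset MeasureTheory Filter Topology

private theorem met_sq {Z : Type} [MeasurableSpace Z] {ρ : Measure Z} (f : Lp ℂ 2 ρ) :
    ((∫ z, ‖f z‖ ^ 2 ∂ρ : ℝ) : ℂ) = inner ℂ f f := by
  rw [L2.inner_def]
  refine (integral_complex_ofReal (f := fun z => ‖f z‖ ^ 2)).symm.trans ?_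
  refine integral_congr_ae (Filter.Eventually.of_forall fun z => ?_)
  beta_reduce
  rw [inner_self_eq_norm_sq_to_K]
  push_cast
  rfl

private theorem met_const {Z : Type} [MeasurableSpace Z] {ρ : Measure Z} [IsProbabilityMeasure ρ] (w : Lp ℂ 2 ρ) :
    inner ℂ (indicatorConstLp 2 MeasurableSet.univ (measure_ne_top ρ Set.univ) (1 : ℂ) : Lp ℂ 2 ρ) w = ∫ z, w z ∂ρ := by
  rw [L2.inner_indicatorConstLp_one, Measure.restrict_univ]

/-- Mean ergodic theorem (`ContinuousLinearMap.tendsto_birkhoffAverage_orthogonalProjection` in `L²(ρ)`; the invariant functions are constant (`Ergodic.ae_eq_const_of_ae_eq_comp`), see also Lib/MP_edb0ca_an/MeanErg.lean). -/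
theorem met {Z : Type} [MeasurableSpace Z] {ρ : Measure Z} [IsProbabilityMeasure ρ] {R : Z → Z} (hR : Ergodic R ρ) (u : Z → ℂ) (hu : Measurable u) (C : ℝ) (hb : ∀ z, ‖u z‖ ≤ C) :
    Tendsto (fun h : ℕ => ∫ z, ‖(∑ a ∈ range h, u (R^[a] z)) / (h : ℂ)‖ ^ 2 ∂ρ) atTop (𝓝 (‖∫ z, u z ∂ρ‖ ^ 2)) := by
  have hg : MemLp u 2 ρ := MemLp.of_bound hu.aestronglyMeasurable C (Filter.Eventually.of_forall hb)
  have hmp := hR.toMeasurePreserving
  set T : Lp ℂ 2 ρ →L[ℂ] Lp ℂ 2 ρ := (Lp.compMeasurePreservingₗᵢ ℂ R hmp).toContinuousLinearMap with hT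
  have hTn : ‖T‖ ≤ 1 := LinearIsometry.norm_toContinuousLinearMap_le _
  set x : Lp ℂ 2 ρ := hg.toLp u with hx
  have hlim := T.tendsto_birkhoffAverage_orthogonalProjection hTn x
  set y : Lp ℂ 2 ρ := ((T.eqLocus (1 : Lp ℂ 2 ρ →L[ℂ] Lp ℂ 2 ρ)).orthogonalProjectionOnto x : Lp ℂ 2 ρ) with hy
  have hTy : T y = y := by
    have := ((T.eqLocus (1 : Lp ℂ 2 ρ →L[ℂ] Lp ℂ 2 ρ)).orthogonalProjectionOnto x).2
    exact this
  have hyc : ∃ c : ℂ, (y : Z → ℂ) =ᵐ[ρ] Function.const Z c := by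
    apply hR.ae_eq_const_of_ae_eq_comp_ae (Lp.aestronglyMeasurable y)
    have h1 : (T y : Z → ℂ) =ᵐ[ρ] (y : Z → ℂ) ∘ R := Lp.coeFn_compMeasurePreserving y hmp
    rw [hTy] at h1
    exact h1.symm
  obtain ⟨c, hc⟩ := hyc
  have hiter : ∀ i : ℕ, T^[i] x = ((hg.comp_measurePreserving (hmp.iterate i)).toLp (u ∘ R^[i]) : Lp ℂ 2 ρ) := by
    intro i
    induction i with
    | zero => rfl
    | succ i ih =>
      rw [Function.iterate_succ_apply', ih]
      exact Lp.toLp_compMeasurePreserving (hg.comp_measurePreserving (hmp.iterate i)) hmp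
  have havg : ∀ k : ℕ, ((birkhoffAverage ℂ T _root_.id k x : Lp ℂ 2 ρ) : Z → ℂ) =ᵐ[ρ]
      fun z => (∑ i ∈ Finset.range k, u (R^[i] z)) / k := by
    intro k
    have h1 : birkhoffAverage ℂ T _root_.id k x = (k : ℂ)⁻¹ • ∑ i ∈ Finset.range k,
        ((hg.comp_measurePreserving (hmp.iterate i)).toLp (u ∘ R^[i]) : Lp ℂ 2 ρ) := by
      unfold birkhoffAverage birkhoffSum
      congr 1
      apply Finset.sum_congr rfl
      intro i _
      exact hiter i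
    rw [h1]
    have h2 := Lp.coeFn_smul (k : ℂ)⁻¹ (∑ i ∈ Finset.range k,
        ((hg.comp_measurePreserving (hmp.iterate i)).toLp (u ∘ R^[i]) : Lp ℂ 2 ρ))
    have h3 : ∀ S : Finset ℕ, ((∑ i ∈ S, ((hg.comp_measurePreserving (hmp.iterate i)).toLp (u ∘ R^[i]) : Lp ℂ 2 ρ) : Lp ℂ 2 ρ) : Z → ℂ)
        =ᵐ[ρ] fun z => ∑ i ∈ S, u (R^[i] z) := by
      classical
      intro S
      induction S using Finset.induction_on with
      | empty =>
        simp only [Finset.sum_empty]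
        exact Lp.coeFn_zero _ _ _
      | insert a S ha ih =>
        rw [Finset.sum_insert ha]
        have h4 := Lp.coeFn_add ((hg.comp_measurePreserving (hmp.iterate a)).toLp (u ∘ R^[a]) : Lp ℂ 2 ρ)
          (∑ i ∈ S, ((hg.comp_measurePreserving (hmp.iterate i)).toLp (u ∘ R^[i]) : Lp ℂ 2 ρ))
        have h5 := (hg.comp_measurePreserving (hmp.iterate a)).coeFn_toLp
        filter_upwards [h4, h5, ih] with z hz1 hz2 hz3
        rw [hz1, Pi.add_apply, hz2, hz3, Finset.sum_insert ha]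
        rfl
    filter_upwards [h2, h3 (Finset.range k)] with z hz1 hz2
    rw [hz1, Pi.smul_apply, hz2, smul_eq_mul, div_eq_inv_mul]
  have hcint : c = ∫ z, u z ∂ρ := by
    have h1 : Tendsto (fun k => inner ℂ (indicatorConstLp 2 MeasurableSet.univ (measure_ne_top ρ Set.univ) (1 : ℂ) : Lp ℂ 2 ρ)
        (birkhoffAverage ℂ T _root_.id k x)) atTop (𝓝 (inner ℂ (indicatorConstLp 2 MeasurableSet.univ (measure_ne_top ρ Set.univ) (1 : ℂ) : Lp ℂ 2 ρ) y)) :=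
      Tendsto.inner tendsto_const_nhds hlim
    simp_rw [met_const] at h1
    have h3 : ∫ z, y z ∂ρ = c := by
      rw [integral_congr_ae hc]; simp
    rw [h3] at h1
    have h4 : ∀ k : ℕ, 1 ≤ k → ∫ z, (birkhoffAverage ℂ T _root_.id k x : Lp ℂ 2 ρ) z ∂ρ = ∫ z, u z ∂ρ := by
      intro k hk
      rw [integral_congr_ae (havg k), integral_div, integral_finsetSum]
      · have h5 : ∀ i ∈ Finset.range k, ∫ z, u (R^[i] z) ∂ρ = ∫ z, u z ∂ρ := by
          intro i _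
          have h6 := integral_map (hmp.iterate i).measurable.aemeasurable (f := u) (by
            rw [(hmp.iterate i).map_eq]; exact hg.aestronglyMeasurable)
          rw [(hmp.iterate i).map_eq] at h6
          exact h6.symm
        rw [Finset.sum_congr rfl h5, Finset.sum_const, Finset.card_range, nsmul_eq_mul]
        have : (k : ℂ) ≠ 0 := by
          rw [Nat.cast_ne_zero]
          omega
        field_simp
      · intro i _
        exact (hg.comp_measurePreserving (hmp.iterate i)).integrable (by norm_num)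
    have h5 : Tendsto (fun k => ∫ z, (birkhoffAverage ℂ T _root_.id k x : Lp ℂ 2 ρ) z ∂ρ) atTop (𝓝 (∫ z, u z ∂ρ)) := by
      apply tendsto_const_nhds.congr'
      filter_upwards [eventually_ge_atTop 1] with k hk
      exact (h4 k hk).symm
    exact tendsto_nhds_unique h1 h5
  -- the norms
  have h1 : Tendsto (fun k => (inner ℂ (birkhoffAverage ℂ T _root_.id k x) (birkhoffAverage ℂ T _root_.id k x) : ℂ))
      atTop (𝓝 (inner ℂ y y)) := Tendsto.inner hlim hlim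
  have h2 : ∀ k, (inner ℂ (birkhoffAverage ℂ T _root_.id k x) (birkhoffAverage ℂ T _root_.id k x) : ℂ) =
      ((∫ z, ‖(∑ a ∈ range k, u (R^[a] z)) / (k : ℂ)‖ ^ 2 ∂ρ : ℝ) : ℂ) := by
    intro k
    rw [← met_sq]
    congr 1
    refine integral_congr_ae ?_
    filter_upwards [havg k] with z hz
    rw [hz]
  have h3 : (inner ℂ y y : ℂ) = ((‖∫ z, u z ∂ρ‖ ^ 2 : ℝ) : ℂ) := by
    rw [← met_sq, ← hcint]
    congr 1
    have h4 : ∫ z, ‖y z‖ ^ 2 ∂ρ = ∫ _z, ‖c‖ ^ 2 ∂ρ := by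
      refine integral_congr_ae ?_
      filter_upwards [hc] with z hz
      rw [hz]
      rfl
    rw [h4]
    simp
  simp_rw [h2] at h1
  rw [h3] at h1
  have h5 := (Complex.continuous_re.tendsto _).comp h1
  simpa only [Function.comp_def, Complex.ofReal_re] using h5

private theorem wm_exp (h : ℕ) (w : ℕ → ℂ) :
    ((‖(∑ a ∈ range h, w a) / (h : ℂ)‖ ^ 2 : ℝ) : ℂ) =
      (∑ a ∈ range h, ∑ b ∈ range h, w a * (starRingEnd ℂ) (w b)) / (h : ℂ) ^ 2 := by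
  have h1 : (((∑ a ∈ range h, w a) / (h : ℂ)) * (starRingEnd ℂ) ((∑ a ∈ range h, w a) / (h : ℂ))) =
      ((‖(∑ a ∈ range h, w a) / (h : ℂ)‖ ^ 2 : ℝ) : ℂ) := by
    rw [RCLike.mul_conj]
    push_cast
    rfl
  rw [← h1, map_div₀, map_sum, Complex.conj_natCast, div_mul_div_comm, Finset.sum_mul_sum, pow_two]

private theorem wm_meas {Z : Type} [MeasurableSpace Z] {R : Z → Z} (hR : Measurable R)
    (u : Z → ℂ) (hu : Measurable u) (a b : ℕ) : Measurable (vv R a b u) := by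
  unfold vv
  exact (hu.comp (hR.iterate a)).mul (Complex.continuous_conj.measurable.comp (hu.comp (hR.iterate b)))

private theorem wm_bd {Z : Type} {R : Z → Z} (u : Z → ℂ) (hb : ∀ z, ‖u z‖ ≤ 1) (a b : ℕ) (z : Z) :
    ‖vv R a b u z‖ ≤ 1 := by
  unfold vv
  rw [norm_mul, RCLike.norm_conj]
  exact mul_le_one₀ (hb _) (norm_nonneg _) (hb _)

private theorem wm_int {Z : Type} [MeasurableSpace Z] {ρ : Measure Z} [IsProbabilityMeasure ρ]
    {R : Z → Z} (hR : Measurable R) (u : Z → ℂ) (hu : Measurable u) (hb : ∀ z, ‖u z‖ ≤ 1) (h : ℕ) :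
    ((∫ z, ‖(∑ a ∈ range h, u (R^[a] z)) / (h : ℂ)‖ ^ 2 ∂ρ : ℝ) : ℂ) =
      (∑ a ∈ range h, ∑ b ∈ range h, ∫ z, vv R a b u z ∂ρ) / (h : ℂ) ^ 2 := by
  have hi : ∀ a b : ℕ, Integrable (vv R a b u) ρ := fun a b =>
    Integrable.of_bound (wm_meas hR u hu a b).aestronglyMeasurable 1
      (Filter.Eventually.of_forall (wm_bd u hb a b))
  refine (integral_complex_ofReal
    (f := fun z => ‖(∑ a ∈ range h, u (R^[a] z)) / (h : ℂ)‖ ^ 2)).symm.trans ?_
  simp_rw [wm_exp]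
  rw [integral_div, integral_finsetSum]
  · congr 1
    refine Finset.sum_congr rfl fun a _ => ?_
    rw [integral_finsetSum]
    · rfl
    · exact fun b _ => hi a b
  · exact fun a _ => integrable_finsetSum _ fun b _ => hi a b

/-- `E_{a,b<h} ‖∫ v_a conj v_b - ‖∫v‖²‖² = E ‖∫ v_a conj v_b‖² - 2 ‖∫v‖² Re E ∫ v_a conj v_b + ‖∫v‖⁴`; `‖∫ v_a conj v_b‖² = ∫∫ v_a(x) conj(v_b(x)) conj(v_a(x')) v_b(x') = ∫ (V_a conj V_b) d(ν×ν)` for `V(x, x') = v(x) conj(v(x'))`, so its average is `∫ ‖E_a V_a‖² d(ν×ν) → ‖∫ v‖⁴` (`met` for the product system);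
the middle term: `met` for `(x, x') ↦ v(x)`. -/
theorem wm_corr {Y : Type} [MeasurableSpace Y] {ν : Measure Y} [IsProbabilityMeasure ν] {S : Y → Y} (hS : MeasurePreserving S ν ν)
    (hE : Ergodic (Prod.map S S) (ν.prod ν)) (v : Y → ℂ) (hv : Measurable v) (hb : ∀ y, ‖v y‖ ≤ 1) :
    Tendsto (fun h : ℕ => (∑ a ∈ range h, ∑ b ∈ range h, ‖(∫ y, vv S a b v y ∂ν) - ((‖∫ y, v y ∂ν‖ ^ 2 : ℝ) : ℂ)‖ ^ 2) / (h : ℝ) ^ 2) atTop (𝓝 0) := by
  obtain ⟨c, hc⟩ : ∃ c : ℝ, c = ‖∫ y, v y ∂ν‖ ^ 2 := ⟨_, rfl⟩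
  rw [← hc]
  have hSm : Measurable (Prod.map S S) := hS.measurable.prodMap hS.measurable
  have hit : ∀ (a : ℕ) (z : Y × Y), (Prod.map S S)^[a] z = (S^[a] z.1, S^[a] z.2) := fun a z => by
    rw [Prod.map_iterate]
    rfl
  -- the two functions on the product
  have hU1 : Measurable (fun z : Y × Y => v z.1) := hv.comp measurable_fst
  have hU2 : Measurable (fun z : Y × Y => v z.1 * (starRingEnd ℂ) (v z.2)) :=
    hU1.mul (Complex.continuous_conj.measurable.comp (hv.comp measurable_snd))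
  have hb1 : ∀ z : Y × Y, ‖(fun z : Y × Y => v z.1) z‖ ≤ 1 := fun z => hb z.1
  have hb2 : ∀ z : Y × Y, ‖(fun z : Y × Y => v z.1 * (starRingEnd ℂ) (v z.2)) z‖ ≤ 1 := fun z => by
    beta_reduce
    rw [norm_mul, RCLike.norm_conj]
    exact mul_le_one₀ (hb _) (norm_nonneg _) (hb _)
  have m1 := met hE _ hU1 1 hb1
  have m2 := met hE _ hU2 1 hb2
  have i1 : ∫ z, v z.1 ∂(ν.prod ν) = ∫ y, v y ∂ν := by
    have h1 := integral_prod_mul (μ := ν) (ν := ν) v (fun _ => (1 : ℂ))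
    simpa using h1
  have i2 : ∫ z, v z.1 * (starRingEnd ℂ) (v z.2) ∂(ν.prod ν) =
      (∫ y, v y ∂ν) * (starRingEnd ℂ) (∫ y, v y ∂ν) := by
    rw [integral_prod_mul v (fun y => (starRingEnd ℂ) (v y)), integral_conj]
  have e1 : ‖∫ z, v z.1 ∂(ν.prod ν)‖ ^ 2 = c := by rw [i1, hc]
  have e2 : ‖∫ z, v z.1 * (starRingEnd ℂ) (v z.2) ∂(ν.prod ν)‖ ^ 2 = c ^ 2 := by
    rw [i2, norm_mul, RCLike.norm_conj, hc]
    ring
  rw [e1] at m1
  rw [e2] at m2
  have j1 : ∀ a b : ℕ, ∫ z, vv (Prod.map S S) a b (fun z : Y × Y => v z.1) z ∂(ν.prod ν) =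
      ∫ y, vv S a b v y ∂ν := by
    intro a b
    have h1 := integral_prod_mul (μ := ν) (ν := ν) (vv S a b v) (fun _ => (1 : ℂ))
    have h2 : ∀ z : Y × Y, vv (Prod.map S S) a b (fun z : Y × Y => v z.1) z = vv S a b v z.1 * 1 := by
      intro z
      unfold vv
      rw [hit, hit, mul_one]
    simp_rw [h2, h1]
    simp
  have j2 : ∀ a b : ℕ, ∫ z, vv (Prod.map S S) a b
      (fun z : Y × Y => v z.1 * (starRingEnd ℂ) (v z.2)) z ∂(ν.prod ν) =
      ((‖∫ y, vv S a b v y ∂ν‖ ^ 2 : ℝ) : ℂ) := by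
    intro a b
    have h1 := integral_prod_mul (μ := ν) (ν := ν) (vv S a b v)
      (fun y => (starRingEnd ℂ) (vv S a b v y))
    have h2 : ∀ z : Y × Y, vv (Prod.map S S) a b
        (fun z : Y × Y => v z.1 * (starRingEnd ℂ) (v z.2)) z =
        vv S a b v z.1 * (starRingEnd ℂ) (vv S a b v z.2) := by
      intro z
      unfold vv
      rw [hit, hit]
      beta_reduce
      simp only [map_mul, Complex.conj_conj]
      ring
    simp_rw [h2, h1]
    rw [integral_conj, RCLike.mul_conj]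
    push_cast
    rfl
  have A : Tendsto (fun h : ℕ => (∑ a ∈ range h, ∑ b ∈ range h, ‖∫ y, vv S a b v y ∂ν‖ ^ 2) /
      (h : ℝ) ^ 2) atTop (𝓝 (c ^ 2)) := by
    refine m2.congr fun h => ?_
    have h1 := wm_int (ρ := ν.prod ν) hSm _ hU2 hb2 h
    simp_rw [j2] at h1
    exact_mod_cast h1
  have B : Tendsto (fun h : ℕ => ((∑ a ∈ range h, ∑ b ∈ range h, ∫ y, vv S a b v y ∂ν) /
      (h : ℂ) ^ 2).re) atTop (𝓝 c) := by
    refine m1.congr fun h => ?_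
    have h1 := wm_int (ρ := ν.prod ν) hSm _ hU1 hb1 h
    simp_rw [j1] at h1
    rw [← h1, Complex.ofReal_re]
  have key : ∀ h : ℕ, 1 ≤ h → (∑ a ∈ range h, ∑ b ∈ range h,
      ‖∫ y, vv S a b v y ∂ν‖ ^ 2) / (h : ℝ) ^ 2 -
      2 * c * ((∑ a ∈ range h, ∑ b ∈ range h, ∫ y, vv S a b v y ∂ν) / (h : ℂ) ^ 2).re + c ^ 2 =
      (∑ a ∈ range h, ∑ b ∈ range h, ‖(∫ y, vv S a b v y ∂ν) - (c : ℂ)‖ ^ 2) / (h : ℝ) ^ 2 := by
    intro h hh
    have hh0 : (h : ℝ) ≠ 0 := by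
      rw [Nat.cast_ne_zero]
      omega
    have h1 : ∀ I : ℂ, ‖I - (c : ℂ)‖ ^ 2 = ‖I‖ ^ 2 - 2 * c * I.re + c ^ 2 := by
      intro I
      rw [Complex.sq_norm, Complex.sq_norm, Complex.normSq_apply, Complex.normSq_apply]
      simp only [Complex.sub_re, Complex.sub_im, Complex.ofReal_re, Complex.ofReal_im]
      ring
    have h2 : ((∑ a ∈ range h, ∑ b ∈ range h, ∫ y, vv S a b v y ∂ν) / (h : ℂ) ^ 2).re =
        (∑ a ∈ range h, ∑ b ∈ range h, (∫ y, vv S a b v y ∂ν).re) / (h : ℝ) ^ 2 := by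
      have h3 : ((h : ℂ) ^ 2) = (((h : ℝ) ^ 2 : ℝ) : ℂ) := by push_cast; rfl
      rw [h3, Complex.div_ofReal_re, Complex.re_sum]
      congr 1
      exact Finset.sum_congr rfl fun a _ => Complex.re_sum _ _
    simp_rw [h1]
    rw [h2]
    simp_rw [Finset.sum_add_distrib, Finset.sum_sub_distrib, ← Finset.mul_sum]
    rw [Finset.sum_const, Finset.sum_const, Finset.card_range, smul_smul, nsmul_eq_mul]
    field_simp
    push_cast
    ring
  have fin : Tendsto (fun h : ℕ => (∑ a ∈ range h, ∑ b ∈ range h,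
      ‖∫ y, vv S a b v y ∂ν‖ ^ 2) / (h : ℝ) ^ 2 -
      2 * c * ((∑ a ∈ range h, ∑ b ∈ range h, ∫ y, vv S a b v y ∂ν) / (h : ℂ) ^ 2).re + c ^ 2)
      atTop (𝓝 (c ^ 2 - 2 * c * c + c ^ 2)) :=
    (A.sub (B.const_mul (2 * c))).add tendsto_const_nhds
  have e0 : c ^ 2 - 2 * c * c + c ^ 2 = 0 := by ring
  rw [e0] at fin
  refine fin.congr' ?_
  filter_upwards [eventually_ge_atTop 1] with h hh
  exact key h hh

private theorem wm_pow_sub (n : ℕ) (x c : ℝ) (hx : 0 ≤ x) (hx1 : x ≤ 1) (hc : 0 ≤ c) (hc1 : c ≤ 1) :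
    |x ^ n - c ^ n| ≤ n * |x - c| := by
  induction n with
  | zero => simp
  | succ n ih =>
    have h1 : x ^ (n + 1) - c ^ (n + 1) = (x ^ n - c ^ n) * x + c ^ n * (x - c) := by ring
    rw [h1]
    refine (abs_add_le _ _).trans ?_
    rw [abs_mul, abs_mul, abs_of_nonneg hx, abs_of_nonneg (pow_nonneg hc n)]
    have h2 : |x ^ n - c ^ n| * x ≤ |x ^ n - c ^ n| * 1 := mul_le_mul_of_nonneg_left hx1 (abs_nonneg _)
    have h3 : c ^ n * |x - c| ≤ 1 * |x - c| :=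
      mul_le_mul_of_nonneg_right (pow_le_one₀ hc hc1) (abs_nonneg _)
    push_cast
    linarith

/-- `|‖z‖^n - c^n| ≤ n ‖z - c‖` for `‖z‖, c ≤ 1`, and Cauchy-Schwarz -/
theorem wm_pow {Y : Type} [MeasurableSpace Y] {ν : Measure Y} [IsProbabilityMeasure ν] {S : Y → Y} (hS : MeasurePreserving S ν ν)
    (hE : Ergodic (Prod.map S S) (ν.prod ν)) (n : ℕ) (v : Y → ℂ) (hv : Measurable v) (hb : ∀ y, ‖v y‖ ≤ 1) :
    Tendsto (fun h : ℕ => (∑ a ∈ range h, ∑ b ∈ range h, ‖∫ y, vv S a b v y ∂ν‖ ^ n) / (h : ℝ) ^ 2) atTop (𝓝 (‖∫ y, v y ∂ν‖ ^ (2 * n))) := by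
  obtain ⟨c, hc⟩ : ∃ c : ℝ, c = ‖∫ y, v y ∂ν‖ ^ 2 := ⟨_, rfl⟩
  have h0 := wm_corr hS hE v hv hb
  rw [pow_mul, ← hc]
  rw [← hc] at h0
  have hc0 : 0 ≤ c := by rw [hc]; positivity
  have hint : ∀ f : Y → ℂ, (∀ y, ‖f y‖ ≤ 1) → ‖∫ y, f y ∂ν‖ ≤ 1 := by
    intro f hf
    have h1 := norm_integral_le_of_norm_le_const (μ := ν) (f := f) (C := 1)
      (Filter.Eventually.of_forall hf)
    simpa using h1
  have hc1 : c ≤ 1 := by
    rw [hc]
    exact pow_le_one₀ (norm_nonneg _) (hint v hb)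
  have hI : ∀ a b : ℕ, ‖∫ y, vv S a b v y ∂ν‖ ≤ 1 := fun a b => hint _ (wm_bd v hb a b)
  obtain ⟨t, ht⟩ : ∃ t : ℕ → ℕ → ℝ, ∀ a b, t a b = ‖(∫ y, vv S a b v y ∂ν) - (c : ℂ)‖ := ⟨_, fun a b => rfl⟩
  simp only [← ht] at h0
  have hsq : Tendsto (fun h : ℕ => Real.sqrt ((∑ a ∈ range h, ∑ b ∈ range h, t a b ^ 2) / (h : ℝ) ^ 2))
      atTop (𝓝 0) := by
    have h1 := (Real.continuous_sqrt.tendsto _).comp h0
    rw [Real.sqrt_zero] at h1
    exact h1
  have hn : Tendsto (fun h : ℕ => (n : ℝ) *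
      Real.sqrt ((∑ a ∈ range h, ∑ b ∈ range h, t a b ^ 2) / (h : ℝ) ^ 2)) atTop (𝓝 0) := by
    have h1 := hsq.const_mul (n : ℝ)
    rwa [mul_zero] at h1
  rw [tendsto_iff_dist_tendsto_zero]
  refine squeeze_zero' (Filter.Eventually.of_forall fun h => dist_nonneg) ?_ hn
  filter_upwards [eventually_ge_atTop 1] with h hh
  have hh0 : (0 : ℝ) < h := by exact_mod_cast hh
  have e1 : (∑ a ∈ range h, ∑ b ∈ range h, ‖∫ y, vv S a b v y ∂ν‖ ^ n) / (h : ℝ) ^ 2 - c ^ n =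
      (∑ a ∈ range h, ∑ b ∈ range h, (‖∫ y, vv S a b v y ∂ν‖ ^ n - c ^ n)) / (h : ℝ) ^ 2 := by
    simp_rw [Finset.sum_sub_distrib]
    rw [Finset.sum_const, Finset.sum_const, Finset.card_range, smul_smul, nsmul_eq_mul]
    field_simp
    push_cast
    ring
  rw [Real.dist_eq, e1, abs_div, abs_of_nonneg (pow_nonneg hh0.le 2)]
  have e2 : |∑ a ∈ range h, ∑ b ∈ range h, (‖∫ y, vv S a b v y ∂ν‖ ^ n - c ^ n)| ≤
      (n : ℝ) * ∑ a ∈ range h, ∑ b ∈ range h, t a b := by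
    refine (Finset.abs_sum_le_sum_abs _ _).trans ?_
    rw [Finset.mul_sum]
    refine Finset.sum_le_sum fun a _ => (Finset.abs_sum_le_sum_abs _ _).trans ?_
    rw [Finset.mul_sum]
    refine Finset.sum_le_sum fun b _ => ?_
    refine (wm_pow_sub n _ c (norm_nonneg _) (hI a b) hc0 hc1).trans ?_
    refine mul_le_mul_of_nonneg_left ?_ (Nat.cast_nonneg n)
    rw [ht]
    have h1 := abs_norm_sub_norm_le (∫ y, vv S a b v y ∂ν) (c : ℂ)
    rwa [Complex.norm_real, Real.norm_eq_abs, abs_of_nonneg hc0] at h1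
  have e3 : (∑ a ∈ range h, ∑ b ∈ range h, t a b) / (h : ℝ) ^ 2 ≤
      Real.sqrt ((∑ a ∈ range h, ∑ b ∈ range h, t a b ^ 2) / (h : ℝ) ^ 2) := by
    apply Real.le_sqrt_of_sq_le
    rw [← Finset.sum_product', ← Finset.sum_product']
    have h1 := sq_sum_le_card_mul_sum_sq (s := range h ×ˢ range h) (f := fun q : ℕ × ℕ => t q.1 q.2)
    rw [Finset.card_product, Finset.card_range] at h1
    push_cast at h1
    rw [div_pow, div_le_div_iff₀ (by positivity) (by positivity)]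
    have h2 := mul_le_mul_of_nonneg_right h1 (show (0 : ℝ) ≤ (h : ℝ) ^ 2 by positivity)
    refine h2.trans (le_of_eq ?_)
    ring
  calc |∑ a ∈ range h, ∑ b ∈ range h, (‖∫ y, vv S a b v y ∂ν‖ ^ n - c ^ n)| / (h : ℝ) ^ 2
      ≤ ((n : ℝ) * ∑ a ∈ range h, ∑ b ∈ range h, t a b) / (h : ℝ) ^ 2 :=
        div_le_div_of_nonneg_right e2 (by positivity)
    _ = (n : ℝ) * ((∑ a ∈ range h, ∑ b ∈ range h, t a b) / (h : ℝ) ^ 2) := by ring
    _ ≤ _ := mul_le_mul_of_nonneg_left e3 (Nat.cast_nonneg n)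

end Pool.Agent.Lib.MP_3e612f_nt.ZE
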