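import Pool.Agent.Lib.MP_3e612f_nt.ZE.W.Cub
import Pool.Agent.Lib.MP_3e612f_nt.ZE.W.Met

/-! Weakly mixing systems: all box norms of functions of mean zero tend to zero. -/

set_option autoImplicit false

namespace Pool.Agent.Lib.MP_3e612f_nt.ZE

open Finset MeasureTheory Filter Topology

private theorem wmm_vv {Y : Type} [MeasurableSpace Y] {S : Y → Y} (hS : Measurable S) (a b : ℕ)
    (v : Y → ℂ) (hv : Measurable v) (hb : ∀ y, ‖v y‖ ≤ 1) :
    Measurable (vv S a b v) ∧ ∀ y, ‖vv S a b v y‖ ≤ 1 := by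
  refine ⟨?_, fun y => ?_⟩
  · unfold vv
    exact (hv.comp (hS.iterate a)).mul
      (Complex.continuous_conj.measurable.comp (hv.comp (hS.iterate b)))
  · unfold vv
    rw [norm_mul, RCLike.norm_conj]
    exact mul_le_one₀ (hb _) (norm_nonneg _) (hb _)

/-- Induction on `K`. `K = 0`: `∫ ‖E_a v_a‖² = Re E_{a,b} ∫ v_a conj v_b → ‖∫v‖²` (`wm_pow` with `n = 1` bounds it from above). Step: fix `h` with `E_{a,b<h} ‖∫ v_a conj v_b‖^(2^(K+1)) ≤ ‖∫v‖^(2^(K+2)) + ε/3` (`wm_pow`); for `H` large `4h/H ≤ ε/3` and `pn H K (vv a b v) ≤ ‖∫ vv a b v‖^(2^(K+1)) + ε/3` for the finitely many `a, b < h` (induction); `pn_scale`. -/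
theorem wm_lim {Y : Type} [MeasurableSpace Y] {ν : Measure Y} [IsProbabilityMeasure ν] {S : Y → Y} (hS : MeasurePreserving S ν ν)
    (hE : Ergodic (Prod.map S S) (ν.prod ν)) (K : ℕ) (v : Y → ℂ) (hv : Measurable v) (hb : ∀ y, ‖v y‖ ≤ 1) (ε : ℝ) (hε : 0 < ε) :
    ∀ᶠ H : ℕ in atTop, pn ν S H K v ≤ ‖∫ y, v y ∂ν‖ ^ (2 ^ (K + 1)) + ε := by
  induction K generalizing v ε with
  | zero =>
    have h1 := wm_pow hS hE 1 v hv hb
    have h2 : ∀ᶠ H : ℕ in atTop, (∑ a ∈ range H, ∑ b ∈ range H, ‖∫ y, vv S a b v y ∂ν‖ ^ 1) /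
        (H : ℝ) ^ 2 < ‖∫ y, v y ∂ν‖ ^ (2 * 1) + ε :=
      h1.eventually (gt_mem_nhds (by linarith))
    filter_upwards [h2] with H h3
    have h4 : pn ν S H 0 v = (∑ a ∈ range H, ∑ b ∈ range H, (∫ y, vv S a b v y ∂ν).re) /
        (H : ℝ) ^ 2 := by
      rw [pn_eq hS.measurable H 0 v hv hb]
      rfl
    have h5 : pn ν S H 0 v ≤ (∑ a ∈ range H, ∑ b ∈ range H, ‖∫ y, vv S a b v y ∂ν‖ ^ 1) /
        (H : ℝ) ^ 2 := by
      rw [h4]
      refine div_le_div_of_nonneg_right (sum_le_sum fun a _ => sum_le_sum fun b _ => ?_)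
        (by positivity)
      rw [pow_one]
      exact Complex.re_le_norm _
    have h6 : (2 : ℕ) ^ (0 + 1) = 2 * 1 := by norm_num
    rw [h6]
    exact h5.trans h3.le
  | succ K ih =>
    have h1 := wm_pow hS hE (2 ^ (K + 1)) v hv hb
    have h2 : ∀ᶠ h : ℕ in atTop, (∑ a ∈ range h, ∑ b ∈ range h,
        ‖∫ y, vv S a b v y ∂ν‖ ^ (2 ^ (K + 1))) / (h : ℝ) ^ 2 <
        ‖∫ y, v y ∂ν‖ ^ (2 * 2 ^ (K + 1)) + ε / 3 :=
      h1.eventually (gt_mem_nhds (by linarith))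
    obtain ⟨h, h3, hh⟩ := (h2.and (eventually_ge_atTop 1)).exists
    have hh0 : (0 : ℝ) < h := by exact_mod_cast hh
    have h4 : ∀ᶠ H : ℕ in atTop, ∀ a ∈ range h, ∀ b ∈ range h,
        pn ν S H K (vv S a b v) ≤ ‖∫ y, vv S a b v y ∂ν‖ ^ (2 ^ (K + 1)) + ε / 3 := by
      rw [eventually_all_finset]
      intro a _
      rw [eventually_all_finset]
      intro b _
      obtain ⟨m1, m2⟩ := wmm_vv hS.measurable a b v hv hb
      exact ih (vv S a b v) m1 m2 (ε / 3) (by linarith)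
    have h5 : ∀ᶠ H : ℕ in atTop, 4 * (h : ℝ) / H < ε / 3 :=
      (tendsto_const_div_atTop_nhds_zero_nat (4 * (h : ℝ))).eventually
        (gt_mem_nhds (by linarith))
    filter_upwards [h4, h5, eventually_ge_atTop h] with H h6 h7 h8
    have h9 := pn_scale hS h H K hh h8 v hv hb
    have h10 : (∑ a ∈ range h, ∑ b ∈ range h, pn ν S H K (vv S a b v)) / (h : ℝ) ^ 2 ≤
        (∑ a ∈ range h, ∑ b ∈ range h, ‖∫ y, vv S a b v y ∂ν‖ ^ (2 ^ (K + 1))) / (h : ℝ) ^ 2 +
          ε / 3 := by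
      have h11 : ∑ a ∈ range h, ∑ b ∈ range h, pn ν S H K (vv S a b v) ≤
          ∑ a ∈ range h, ∑ b ∈ range h, (‖∫ y, vv S a b v y ∂ν‖ ^ (2 ^ (K + 1)) + ε / 3) :=
        sum_le_sum fun a ha => sum_le_sum fun b hb' => h6 a ha b hb'
      have h12 : ∑ a ∈ range h, ∑ b ∈ range h, (‖∫ y, vv S a b v y ∂ν‖ ^ (2 ^ (K + 1)) + ε / 3) =
          ∑ a ∈ range h, ∑ b ∈ range h, ‖∫ y, vv S a b v y ∂ν‖ ^ (2 ^ (K + 1)) +
            (h : ℝ) ^ 2 * (ε / 3) := by
        simp only [sum_add_distrib, sum_const, card_range, nsmul_eq_mul]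
        ring
      rw [h12] at h11
      refine (div_le_div_of_nonneg_right h11 (by positivity)).trans (le_of_eq ?_)
      rw [add_div, mul_div_cancel_left₀ _ (by positivity)]
    have h13 : (2 : ℕ) ^ (K + 1 + 1) = 2 * 2 ^ (K + 1) := by ring
    rw [h13]
    linarith

/-- homogeneity: `psi H K (c • w) j = ‖c‖^(2^(K+1)) psi H K w j` -/
private theorem wmm_smul (H K : ℕ) (c : ℂ) (w : ℕ → ℂ) (j : ℕ) : psi H K (fun n => c * w n) j = ‖c‖ ^ (2 ^ (K + 1)) * psi H K w j := by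
  induction K generalizing c w with
  | zero =>
    unfold psi
    rw [← mul_sum, mul_div_assoc, norm_mul, mul_pow]
    norm_num
  | succ K ih =>
    unfold psi
    rw [mul_div_assoc', mul_sum]
    congr 1
    refine sum_congr rfl fun a _ => ?_
    rw [mul_sum]
    refine sum_congr rfl fun b _ => ?_
    have h1 : (fun n => c * w (n + a) * (starRingEnd ℂ) (c * w (n + b))) =
        fun n => (c * (starRingEnd ℂ) c) * (w (n + a) * (starRingEnd ℂ) (w (n + b))) := by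
      funext n
      rw [map_mul]
      ring
    rw [h1, ih]
    congr 1
    rw [norm_mul, RCLike.norm_conj, ← pow_two, ← pow_mul]
    congr 1
    ring

/-- `wm_lim` for `v = (g - ∫ g)/(2C + 1)`, `wmm_smul` -/
theorem wm_psi {Y : Type} [MeasurableSpace Y] {ν : Measure Y} [IsProbabilityMeasure ν] {S : Y → Y} (hS : MeasurePreserving S ν ν)
    (hE : Ergodic (Prod.map S S) (ν.prod ν)) (g : Y → ℂ) (hg : Measurable g) (C : ℝ) (hb : ∀ y, ‖g y‖ ≤ C) (K : ℕ) (τ : ℝ) (hτ : 0 < τ) :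
    ∃ H : ℕ, 1 ≤ H ∧ ∫ y, psi H K (fun n => g (S^[n] y) - ∫ z, g z ∂ν) 0 ∂ν ≤ τ := by
  have : Nonempty Y := by
    by_contra hcon
    rw [not_nonempty_iff] at hcon
    have h1 : ν Set.univ = 1 := measure_univ
    rw [Set.univ_eq_empty_iff.2 hcon, measure_empty] at h1
    exact zero_ne_one h1
  obtain ⟨y0⟩ := this
  have hC : 0 ≤ C := (norm_nonneg _).trans (hb y0)
  have hI : ‖∫ z, g z ∂ν‖ ≤ C := by
    have h1 := norm_integral_le_of_norm_le_const (μ := ν) (f := g) (C := C)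
      (Eventually.of_forall hb)
    simpa using h1
  set D : ℝ := 2 * C + 1 with hD
  have hD0 : 0 < D := by rw [hD]; linarith
  have hDc : (D : ℂ) ≠ 0 := by exact_mod_cast hD0.ne'
  set v : Y → ℂ := fun y => (g y - ∫ z, g z ∂ν) / (D : ℂ) with hv
  have hvm : Measurable v := (hg.sub_const _).div_const _
  have hvb : ∀ y, ‖v y‖ ≤ 1 := by
    intro y
    rw [hv]
    simp only
    rw [norm_div, Complex.norm_real, Real.norm_of_nonneg hD0.le, div_le_one hD0]
    have := norm_sub_le (g y) (∫ z, g z ∂ν)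
    have := hb y
    rw [hD]
    linarith
  have hgi : Integrable g ν := Integrable.of_bound hg.aestronglyMeasurable C
    (Eventually.of_forall hb)
  have hv0 : ∫ y, v y ∂ν = 0 := by
    rw [hv]
    simp only
    rw [integral_div, integral_sub hgi (integrable_const _), integral_const]
    simp
  have hε : 0 < τ / D ^ (2 ^ (K + 1)) := by positivity
  obtain ⟨H, h1, h2⟩ := ((wm_lim hS hE K v hvm hvb _ hε).and (eventually_ge_atTop 1)).exists
  refine ⟨H, h2, ?_⟩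
  rw [hv0, norm_zero, zero_pow (by positivity), zero_add] at h1
  have h3 : ∀ y, psi H K (fun n => g (S^[n] y) - ∫ z, g z ∂ν) 0 =
      D ^ (2 ^ (K + 1)) * psi H K (fun n => v (S^[n] y)) 0 := by
    intro y
    have h4 : (fun n => g (S^[n] y) - ∫ z, g z ∂ν) = fun n => (D : ℂ) * v (S^[n] y) := by
      funext n
      rw [hv]
      simp only
      field_simp
    rw [h4, wmm_smul, Complex.norm_real, Real.norm_of_nonneg hD0.le]
  simp only [h3]
  rw [integral_const_mul]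
  change D ^ (2 ^ (K + 1)) * pn ν S H K v ≤ τ
  rw [le_div_iff₀ (by positivity)] at h1
  linarith

end Pool.Agent.Lib.MP_3e612f_nt.ZE
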