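import Pool.Agent.Lib.MP_3e612f_nt.NF.G.MfdDefs

/-! The nilmanifold with one point. -/

set_option autoImplicit false

namespace Pool.Agent.Lib.MP_3e612f_nt.ZE

open Pool.Agent.Lib.MP_3e612f_nt.NF (LL MalZ NilMfd)

/-- trivial Mal'cev data of the trivial group -/
def trivM : MalZ Unit (⊤ : Subgroup Unit) 1 where
  I _ := Empty
  fin _ := inferInstance
  n _ := 0
  p _ _ := fun e => e.elim
  e _ _ := ()
  n_cont := continuous_const
  n_mul _ _ := by simp
  p_cont _ _ := continuous_const.continuousOn
  p_mul _ _ _ _ _ _ := funext fun e => e.elim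
  p_ker i _ x _ _ := ⟨fun _ => by
    have : x = 1 := rfl
    rw [this]
    exact Subgroup.one_mem _, fun _ => funext fun e => e.elim⟩
  e_cont _ _ := continuous_const
  e_mem i _ t := by
    have : (() : Unit) = 1 := rfl
    rw [this]
    exact Subgroup.one_mem _
  n_e _ := rfl
  p_e _ _ _ := funext fun e => e.elim
  p_int _ _ _ _ _ j := j.elim
  int_p i _ _ := ⟨(), Subgroup.mem_top _, by
    have : (() : Unit) = 1 := rfl
    rw [this]
    exact Subgroup.one_mem _, rfl, fun j => j.elim⟩
  int_n := Or.inl fun _ => rfl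

/-- the nilmanifold with one point -/
def trivN : NilMfd where
  G := Unit
  Γ := ⊤
  closed := isClosed_univ
  k := 1
  pos := le_rfl
  nil := by
    rw [eq_bot_iff]
    intro x _
    rfl
  M := trivM

end Pool.Agent.Lib.MP_3e612f_nt.ZE
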