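import Pool.Agent.Lib.MP_3e612f_nt.ZE.W.Main
import Pool.Agent.Lib.MP_3e612f_nt.ZE.W.Triv
import Pool.Agent.Lib.MP_3e612f_nt.ZE.H.Psi

/-! Weakly mixing measures are modelled by the nilmanifold with one point. -/

set_option autoImplicit false

namespace Pool.Agent.Lib.MP_3e612f_nt.ZE

open Finset MeasureTheory Filter Topology

theorem wm_near {Y : Type} [MeasurableSpace Y] (ν : Measure Y) [IsProbabilityMeasure ν] (S : Y → Y) (hS : MeasurePreserving S ν ν)
    (hE : Ergodic (Prod.map S S) (ν.prod ν)) (g : Y → ℂ) (hg : Measurable g) (hb : ∀ y, ‖g y‖ ≤ 1) (K : ℕ) (ε : ℝ) (hε : 0 < ε)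
    {X : Type} [TopologicalSpace X] [Subsingleton X] (x₀ : X) (T : X → X) :
    ∃ (_ : MeasurableSpace X) (_ : BorelSpace X) (f : X → ℂ) (H : ℕ) (lam : Measure (X × Y)), Continuous f ∧ (∀ x, ‖f x‖ ≤ 1) ∧ 1 ≤ H ∧ IsProbabilityMeasure lam ∧
      MeasurePreserving (Prod.map T S) lam lam ∧ lam.map Prod.snd = ν ∧ ∫ p, psi H K (fun n => g (S^[n] p.2) - f (T^[n] p.1)) 0 ∂lam ≤ ε := by
  obtain ⟨H, hH, hi⟩ := wm_psi hS hE g hg 1 hb K ε hε
  let mX : MeasurableSpace X := borel X
  have bX : BorelSpace X := ⟨rfl⟩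
  have hT : T = id := by
    funext x
    exact Subsingleton.elim _ _
  have hTm : Measurable T := by
    rw [hT]
    exact measurable_id
  have hm : Measurable fun y : Y => ((x₀, y) : X × Y) := measurable_const.prodMk measurable_id
  have hn : ‖∫ z, g z ∂ν‖ ≤ 1 := by
    refine (norm_integral_le_of_norm_le_const (C := 1) (Eventually.of_forall hb)).trans ?_
    simp
  refine ⟨mX, bX, fun _ => ∫ z, g z ∂ν, H, ν.map fun y => (x₀, y), continuous_const, fun _ => hn, hH, Measure.isProbabilityMeasure_map hm.aemeasurable, ?_, ?_, ?_⟩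
  · refine ⟨hTm.prodMap hS.measurable, ?_⟩
    rw [Measure.map_map (hTm.prodMap hS.measurable) hm]
    have h1 : (Prod.map T S ∘ fun y : Y => (x₀, y)) = (fun y : Y => (x₀, y)) ∘ S := by
      funext y
      exact Prod.ext (Subsingleton.elim _ _) rfl
    rw [h1, ← Measure.map_map hm hS.measurable, hS.map_eq]
  · rw [Measure.map_map measurable_snd hm]
    have h1 : (Prod.snd ∘ fun y : Y => ((x₀, y) : X × Y)) = id := rfl
    rw [h1, Measure.map_id]
  · have hpm : Measurable fun p : X × Y => psi H K (fun n => g (S^[n] p.2) - ∫ z, g z ∂ν) 0 := by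
      refine psi_meas H K _ (fun n => ?_) 0
      exact (hg.comp ((hS.measurable.iterate n).comp measurable_snd)).sub_const _
    rw [integral_map hm.aemeasurable hpm.aestronglyMeasurable]
    exact hi

end Pool.Agent.Lib.MP_3e612f_nt.ZE
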